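import Pool.Agent.H413Z.Sel.Ei

/-!
Mellin data of the two families of generators.
-/

set_option autoImplicit false

namespace Pool.Agent.H520Z.Sel

open MeasureTheory Set Filter Topology

namespace H413

lemma norm_sinh_le (z : ℂ) {M : ℝ} (h : |z.re| ≤ M) : ‖Complex.sinh z‖ ≤ Real.exp M := by
  have h1 : ‖Complex.exp z‖ ≤ Real.exp M := by
    rw [Complex.norm_exp]
    exact Real.exp_le_exp.2 (le_trans (le_abs_self _) h)
  have h2 : ‖Complex.exp (-z)‖ ≤ Real.exp M := by
    rw [Complex.norm_exp]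
    exact Real.exp_le_exp.2 (le_trans (by simpa using neg_le_abs z.re) h)
  have h3 := norm_sub_le (Complex.exp z) (Complex.exp (-z))
  unfold Complex.sinh
  rw [norm_div]
  simp only [Complex.norm_ofNat]
  linarith

lemma sinh_ne {z : ℂ} (h : z.re ≠ 0) : Complex.sinh z ≠ 0 := by
  intro h0
  unfold Complex.sinh at h0
  have h1 : Complex.exp z = Complex.exp (-z) := by linear_combination 2 * h0
  have h2 := congrArg norm h1
  rw [Complex.norm_exp, Complex.norm_exp, Real.exp_eq_exp] at h2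
  simp only [Complex.neg_re] at h2
  exact h (by linarith)

lemma re_arg (T x : ℝ) (w : ℂ) :
    ((Real.pi : ℂ) * (w - x) / T).re = Real.pi * (w.re - x) / T := by
  rw [Complex.div_ofReal_re]
  simp

lemma Pz_eq (k b T : ℝ) (w : ℂ) : Pz k b T w =
    Complex.sinh (Real.pi * (w - b) / T) * Complex.sinh (Real.pi * (w - (k - b : ℝ)) / T) := by
  unfold Pz
  congr 2
  push_cast
  ring

lemma Pz_ne {k b T : ℝ} (hT : 0 < T) (hb : k / 2 < b) {w : ℂ} (hw : b < w.re) :
    Pz k b T w ≠ 0 := by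
  have hpi := Real.pi_pos
  rw [Pz_eq]
  refine mul_ne_zero (sinh_ne ?_) (sinh_ne ?_)
  · rw [re_arg]
    exact (div_pos (mul_pos hpi (by linarith)) hT).ne'
  · rw [re_arg]
    exact (div_pos (mul_pos hpi (by linarith)) hT).ne'

lemma abs_arg_le {T x M : ℝ} (hT : 0 < T) {w : ℂ} (hw : |w.re| ≤ M) :
    |((Real.pi : ℂ) * (w - x) / T).re| ≤ Real.pi * (M + |x|) / T := by
  have hpi := Real.pi_pos
  rw [re_arg, abs_div, abs_mul, abs_of_pos hpi, abs_of_pos hT]
  gcongr
  exact le_trans (abs_sub _ _) (by linarith)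

lemma Pz_bdd (k b M : ℝ) {T : ℝ} (hT : 0 < T) :
    ∃ K : ℝ, ∀ w : ℂ, |w.re| ≤ M → ‖Pz k b T w‖ ≤ K := by
  refine ⟨Real.exp (Real.pi * (M + |b|) / T) * Real.exp (Real.pi * (M + |k - b|) / T),
    fun w hw => ?_⟩
  rw [Pz_eq, norm_mul]
  exact mul_le_mul (norm_sinh_le _ (abs_arg_le hT hw)) (norm_sinh_le _ (abs_arg_le hT hw))
    (norm_nonneg _) (Real.exp_pos _).le

lemma Pz_refl (k b T : ℝ) (w : ℂ) :
    Pz k b T (k - starRingEnd ℂ w) = starRingEnd ℂ (Pz k b T w) := by
  unfold Pz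
  rw [map_mul, ← Complex.sinh_conj, ← Complex.sinh_conj]
  simp only [map_div₀, map_mul, map_sub, map_add, Complex.conj_ofReal]
  rw [show (Real.pi : ℂ) * (k - starRingEnd ℂ w - b) / T =
      -(Real.pi * (starRingEnd ℂ w - k + b) / T) by ring,
    show (Real.pi : ℂ) * (k - starRingEnd ℂ w - k + b) / T =
      -(Real.pi * (starRingEnd ℂ w - b) / T) by ring, Complex.sinh_neg, Complex.sinh_neg]
  ring

/-- The derivative of `Pz`. -/
noncomputable def Pd (k T : ℝ) (w : ℂ) : ℂ :=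
  (Real.pi / T : ℂ) * Complex.sinh (2 * (Real.pi * (w - (k / 2 : ℝ)) / T))

lemma hasDerivAt_Pz (k b T : ℝ) (w : ℂ) : HasDerivAt (Pz k b T) (Pd k T w) w := by
  have h1 : HasDerivAt (fun w : ℂ => (Real.pi : ℂ) * (w - b) / T) (Real.pi / T) w := by
    simpa using (((hasDerivAt_id w).sub_const (b : ℂ)).const_mul (Real.pi : ℂ)).div_const (T : ℂ)
  have h2 : HasDerivAt (fun w : ℂ => (Real.pi : ℂ) * (w - k + b) / T) (Real.pi / T) w := by
    simpa using ((((hasDerivAt_id w).sub_const (k : ℂ)).add_const (b : ℂ)).const_mul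
      (Real.pi : ℂ)).div_const (T : ℂ)
  have h3 := h1.csinh.mul h2.csinh
  refine HasDerivAt.congr_deriv h3 ?_
  unfold Pd
  rw [show 2 * ((Real.pi : ℂ) * (w - (k / 2 : ℝ)) / T) =
    Real.pi * (w - b) / T + Real.pi * (w - k + b) / T by push_cast; ring, Complex.sinh_add]
  ring

lemma diff_Pz (k b T : ℝ) : Differentiable ℂ (Pz k b T) :=
  fun w => (hasDerivAt_Pz k b T w).differentiableAt

lemma Pd_bdd (k M : ℝ) {T : ℝ} (hT : 0 < T) :
    ∃ K : ℝ, ∀ w : ℂ, |w.re| ≤ M → ‖Pd k T w‖ ≤ K := by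
  refine ⟨‖(Real.pi / T : ℂ)‖ * Real.exp (2 * (Real.pi * (M + |k / 2|) / T)), fun w hw => ?_⟩
  unfold Pd
  rw [norm_mul]
  refine mul_le_mul_of_nonneg_left (norm_sinh_le _ ?_) (norm_nonneg _)
  have := abs_arg_le (x := k / 2) hT hw
  rw [show (2 : ℂ) = ((2 : ℝ) : ℂ) by simp, Complex.re_ofReal_mul, abs_mul]
  rw [abs_of_pos (by norm_num : (0 : ℝ) < 2)]
  linarith

lemma Pd_refl (k T : ℝ) (w : ℂ) :
    Pd k T (k - starRingEnd ℂ w) = -starRingEnd ℂ (Pd k T w) := by
  unfold Pd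
  rw [map_mul, ← Complex.sinh_conj]
  simp only [map_div₀, map_mul, map_sub, Complex.conj_ofReal, map_ofNat]
  rw [show 2 * ((Real.pi : ℂ) * (k - starRingEnd ℂ w - (k / 2 : ℝ)) / T) =
      -(2 * (Real.pi * (starRingEnd ℂ w - (k / 2 : ℝ)) / T)) by push_cast; ring, Complex.sinh_neg]
  ring

lemma ds_same (k b T : ℝ) (a : ℂ) : dslope (Pz k b T) a a = Pd k T a := by
  rw [dslope_same, (hasDerivAt_Pz k b T a).deriv]

lemma ds_ne {k b T : ℝ} {a w : ℂ} (ha : Pz k b T a = 0) (h : w ≠ a) :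
    dslope (Pz k b T) a w = Pz k b T w / (w - a) := by
  rw [dslope_of_ne _ h, slope_def_field, ha, sub_zero]

lemma ds_diff (k b T : ℝ) (a : ℂ) : Differentiable ℂ (dslope (Pz k b T) a) := by
  rw [← differentiableOn_univ]
  exact (Complex.differentiableOn_dslope univ_mem).2 (diff_Pz k b T).differentiableOn

lemma ds_bdd (k b M : ℝ) {T : ℝ} (hT : 0 < T) : ∃ K : ℝ, ∀ a w : ℂ, |a.re| ≤ M → |w.re| ≤ M →
    ‖dslope (Pz k b T) a w‖ ≤ K := by
  obtain ⟨K, hK⟩ := Pd_bdd k M hT
  refine ⟨K, fun a w ha hw => ?_⟩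
  by_cases h : w = a
  · rw [h, ds_same]
    exact hK a ha
  · have hconv : Convex ℝ {z : ℂ | |z.re| ≤ M} := by
      have : {z : ℂ | |z.re| ≤ M} = {z : ℂ | -M ≤ z.re} ∩ {z : ℂ | z.re ≤ M} := by
        ext z
        simp [abs_le]
      rw [this]
      exact (convex_halfSpace_re_ge _).inter (convex_halfSpace_re_le _)
    have h1 := hconv.norm_image_sub_le_of_norm_hasDerivWithin_le (f := Pz k b T)
      (f' := Pd k T) (fun z _ => (hasDerivAt_Pz k b T z).hasDerivWithinAt)
      (fun z hz => hK z hz) ha hw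
    rw [dslope_of_ne _ h, slope_def_field, norm_div,
      div_le_iff₀ (norm_pos_iff.2 (sub_ne_zero.2 h))]
    exact h1

lemma ds_refl (k b T : ℝ) (a w : ℂ) : dslope (Pz k b T) a (k - starRingEnd ℂ w) =
    -starRingEnd ℂ (dslope (Pz k b T) (k - starRingEnd ℂ a) w) := by
  by_cases h : w = k - starRingEnd ℂ a
  · have h2 : (k : ℂ) - starRingEnd ℂ w = a := by
      rw [h]
      simp
    rw [h2, h, ds_same, ds_same, Pd_refl]
    simp
  · have h2 : (k : ℂ) - starRingEnd ℂ w ≠ a := by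
      intro h2
      apply h
      rw [← h2]
      simp
    rw [dslope_of_ne _ h, dslope_of_ne _ h2, slope_def_field, slope_def_field, Pz_refl, Pz_refl]
    simp only [map_div₀, map_sub, Complex.conj_conj, Complex.conj_ofReal]
    rw [show starRingEnd ℂ w - (k - a) = -(k - starRingEnd ℂ w - a) by ring, div_neg, neg_neg]

lemma Pz_zero (k b : ℝ) {T : ℝ} (hT : 0 < T) (m : ℤ) :
    Pz k b T ((b : ℂ) + (T * m : ℝ) * Complex.I) = 0 := by
  have hT' : (T : ℂ) ≠ 0 := by exact_mod_cast hT.ne'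
  unfold Pz
  rw [show (Real.pi : ℂ) * ((b : ℂ) + (T * m : ℝ) * Complex.I - b) / T =
    ((m : ℂ) * Real.pi) * Complex.I by push_cast; field_simp; ring, Complex.sinh_mul_I,
    Complex.sin_int_mul_pi]
  simp

lemma Pd_val (k b : ℝ) {T : ℝ} (hT : 0 < T) (n : ℕ) :
    Pd k T ((b : ℂ) + (T * n : ℝ) * Complex.I) =
      ((Real.pi / T * Real.sinh (Real.pi * (2 * b - k) / T) : ℝ) : ℂ) := by
  have hT' : (T : ℂ) ≠ 0 := by exact_mod_cast hT.ne'
  unfold Pd
  rw [show 2 * ((Real.pi : ℂ) * ((b : ℂ) + (T * n : ℝ) * Complex.I - (k / 2 : ℝ)) / T) =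
    Real.pi * (2 * b - k) / T + ((n : ℂ) * (2 * Real.pi)) * Complex.I by
      push_cast; field_simp; ring, Complex.sinh_add, Complex.sinh_mul_I, Complex.cosh_mul_I,
    Complex.cos_nat_mul_two_pi]
  have : Complex.sin ((n : ℂ) * (2 * Real.pi)) = 0 := by
    have := Complex.sin_nat_mul_pi (2 * n)
    rw [← this]
    congr 1
    push_cast
    ring
  rw [this]
  push_cast
  ring

lemma pow_exp_bdd {a r : ℝ} (ha : 0 < a) (hr : 0 < r) :
    ∃ K : ℝ, ∀ y : ℝ, 0 < y → y ^ a * Real.exp (-(r * y)) ≤ K := by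
  refine ⟨(a / r) ^ a, fun y hy => ?_⟩
  have h1 : y ≤ a / r * Real.exp (r * y / a) := by
    have h := Real.add_one_le_exp (r * y / a)
    have : y = a / r * (r * y / a) := by field_simp
    calc y = a / r * (r * y / a) := this
      _ ≤ _ := mul_le_mul_of_nonneg_left (by linarith) (by positivity)
  have h2 : y ^ a ≤ (a / r) ^ a * Real.exp (r * y) := by
    calc y ^ a ≤ (a / r * Real.exp (r * y / a)) ^ a := Real.rpow_le_rpow hy.le h1 ha.le
      _ = _ := by
        rw [Real.mul_rpow (by positivity) (Real.exp_pos _).le, ← Real.exp_mul]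
        congr 2
        field_simp
  calc y ^ a * Real.exp (-(r * y)) ≤ (a / r) ^ a * Real.exp (r * y) * Real.exp (-(r * y)) :=
        mul_le_mul_of_nonneg_right h2 (Real.exp_pos _).le
    _ = _ := by
        rw [mul_assoc, ← Real.exp_add]
        simp

lemma rpow_bdd {t : ℝ} (ht : 0 < t) {x M : ℝ} (h : |x| ≤ M) :
    t ^ x ≤ Real.exp (|Real.log t| * M) := by
  rw [Real.rpow_def_of_pos ht]
  apply Real.exp_le_exp.2
  calc Real.log t * x ≤ |Real.log t * x| := le_abs_self _
    _ = |Real.log t| * |x| := abs_mul _ _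
    _ ≤ _ := mul_le_mul_of_nonneg_left h (abs_nonneg _)

lemma conj_cpow {t : ℝ} (ht : 0 < t) (w : ℂ) :
    starRingEnd ℂ ((t : ℂ) ^ w) = (t : ℂ) ^ (starRingEnd ℂ w) := by
  have harg : (t : ℂ).arg ≠ Real.pi := by
    rw [Complex.arg_ofReal_of_nonneg ht.le]; exact Real.pi_ne_zero.symm
  have := Complex.cpow_conj (t : ℂ) w harg
  rw [Complex.conj_ofReal] at this
  exact this.symm

lemma hm_exp2 (k : ℝ) {t : ℝ} (ht : 0 < t) {w : ℂ} (hw : 0 < w.re) :
    HasMellin (fun y : ℝ => ((t ^ (-k) * Real.exp (-(y / t)) : ℝ) : ℂ)) w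
      ((t : ℂ) ^ (w - k) * Complex.Gamma w) := by
  have ht' : (t : ℂ) ≠ 0 := by exact_mod_cast ht.ne'
  have h := hm_mul (hm_exp (inv_pos.2 ht) hw) ((t ^ (-k) : ℝ) : ℂ)
  refine hm_congr h (fun y _ => ?_) ?_
  · rw [show y / t = t⁻¹ * y by ring, Complex.ofReal_mul]
  · rw [Complex.ofReal_cpow ht.le, Complex.ofReal_inv, Complex.inv_cpow _ _ (by
      rw [Complex.arg_ofReal_of_nonneg ht.le]; exact Real.pi_ne_zero.symm), ← Complex.cpow_neg,
      neg_neg, ← mul_assoc, ← Complex.cpow_add _ _ ht']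
    congr 2
    push_cast
    ring

theorem part1 (k b T c c1 : ℝ) (hT : 0 < T) (hk : 0 < k) (hb : k / 2 < b) (hbc : b < c1)
    (hc : c1 < c - 1) (t : ℝ) (ht : 0 < t) :
      MRep k (c - 1 / 2) c1 (-1) (Psi2 k b T (c - 1 / 2)) (Psi1 k b T c1)
        (fun y => Real.exp (-(t * y)) - t ^ (-k) * Real.exp (-(y / t)))
        (fun w => Pz k b T w * ((t : ℂ) ^ (-w) - (t : ℂ) ^ (w - k))) ∧
      ∃ K : ℝ, ∀ y, 0 < y → (y ^ (c + 1) + y ^ (c - 1)) *
        |Real.exp (-(t * y)) - t ^ (-k) * Real.exp (-(y / t))| ≤ K := by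
  have ht' : (t : ℂ) ≠ 0 := by exact_mod_cast ht.ne'
  constructor
  · refine ⟨fun y => -t * Real.exp (-(t * y)) + t⁻¹ * (t ^ (-k) * Real.exp (-(y / t))),
      fun y _ => ?_, by fun_prop, ?_, ?_, fun w => ?_, fun u => ?_, fun u => ?_⟩
    · have h1 := ((hasDerivAt_id y).const_mul t).neg.exp
      have h2 := (((hasDerivAt_id y).div_const t).neg.exp).const_mul (t ^ (-k))
      refine HasDerivAt.congr_deriv (h1.sub h2) ?_
      simp only [id, Pi.neg_apply]
      ring
    · refine (diff_Pz k b T).mul (Differentiable.sub ?_ ?_)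
      · exact differentiable_id.neg.const_cpow (Or.inl ht')
      · exact (differentiable_id.sub_const _).const_cpow (Or.inl ht')
    · obtain ⟨K, hK⟩ := Pz_bdd k b (c - 1 / 2) hT
      refine ⟨K * (Real.exp (|Real.log t| * (c - 1 / 2)) + Real.exp (|Real.log t| * (c - 1 / 2))),
        fun w h1 h2 => ?_⟩
      have h3 : |w.re| ≤ c - 1 / 2 := abs_le.2 ⟨by linarith, h2⟩
      rw [norm_mul]
      refine mul_le_mul (hK w h3) ((norm_sub_le _ _).trans (add_le_add ?_ ?_)) (norm_nonneg _)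
        ((norm_nonneg _).trans (hK w h3))
      · rw [Complex.norm_cpow_eq_rpow_re_of_pos ht]
        exact rpow_bdd ht (by simpa using h3)
      · rw [Complex.norm_cpow_eq_rpow_re_of_pos ht]
        refine rpow_bdd ht (abs_le.2 ⟨?_, ?_⟩) <;> simp <;> linarith
    · simp only [Pz_refl, map_mul, map_sub, conj_cpow ht, map_neg, Complex.conj_ofReal]
      rw [show -((k : ℂ) - starRingEnd ℂ w) = starRingEnd ℂ w - k by ring,
        show (k : ℂ) - starRingEnd ℂ w - k = -starRingEnd ℂ w by ring]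
      ring
    · set w : ℂ := ((c - 1 / 2 : ℝ) : ℂ) + u * Complex.I with hw
      have hre : w.re = c - 1 / 2 := by simp [hw]
      have hw0 : 0 < w.re := by rw [hre]; linarith
      have hP : Pz k b T w ≠ 0 := Pz_ne hT hb (by rw [hre]; linarith)
      have h := hm_add (hm_exp ht hw0) (hm_mul (hm_exp2 k ht hw0) (-1))
      refine hm_congr h (fun y _ => by push_cast; ring) ?_
      unfold Psi2
      rw [← hw]
      field_simp
      ring
    · set w : ℂ := (c1 : ℂ) + u * Complex.I with hw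
      have hre : w.re = c1 := by simp [hw]
      have hw0 : 0 < w.re := by rw [hre]; linarith
      have hw1 : 0 < (w + 1).re := by simp; linarith
      have hwne : w ≠ 0 := by
        intro h
        simp [h] at hw0
      have hP : Pz k b T w ≠ 0 := Pz_ne hT hb (by rw [hre]; linarith)
      have h := hm_shift (hm_add (hm_mul (hm_exp ht hw1) (-t))
        (hm_mul (hm_exp2 k ht hw1) (t : ℂ)⁻¹))
      refine hm_congr h (fun y _ => by push_cast; ring) ?_
      unfold Psi1
      rw [← hw, Complex.Gamma_add_one _ hwne, show -(w + 1) = -w + -1 by ring,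
        show w + 1 - k = (w - k) + 1 by ring, Complex.cpow_add _ _ ht', Complex.cpow_add _ _ ht',
        Complex.cpow_neg_one, Complex.cpow_one]
      field_simp
      ring
  · obtain ⟨K1, h1⟩ := pow_exp_bdd (a := c + 1) (by linarith) ht
    obtain ⟨K2, h2⟩ := pow_exp_bdd (a := c - 1) (by linarith) ht
    obtain ⟨K3, h3⟩ := pow_exp_bdd (a := c + 1) (by linarith) (inv_pos.2 ht)
    obtain ⟨K4, h4⟩ := pow_exp_bdd (a := c - 1) (by linarith) (inv_pos.2 ht)
    refine ⟨K1 + K2 + t ^ (-k) * (K3 + K4), fun y hy => ?_⟩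
    have hk0 : 0 < t ^ (-k) := by positivity
    have e1 := Real.exp_pos (-(t * y))
    have e2 := Real.exp_pos (-(t⁻¹ * y))
    rw [show y / t = t⁻¹ * y by ring]
    have h5 : |Real.exp (-(t * y)) - t ^ (-k) * Real.exp (-(t⁻¹ * y))| ≤
        Real.exp (-(t * y)) + t ^ (-k) * Real.exp (-(t⁻¹ * y)) := by
      have := mul_pos hk0 e2
      exact abs_le.2 ⟨by linarith, by linarith⟩
    calc _ ≤ (y ^ (c + 1) + y ^ (c - 1)) *
          (Real.exp (-(t * y)) + t ^ (-k) * Real.exp (-(t⁻¹ * y))) :=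
          mul_le_mul_of_nonneg_left h5 (by positivity)
      _ = y ^ (c + 1) * Real.exp (-(t * y)) + y ^ (c - 1) * Real.exp (-(t * y)) + t ^ (-k) *
          (y ^ (c + 1) * Real.exp (-(t⁻¹ * y)) + y ^ (c - 1) * Real.exp (-(t⁻¹ * y))) := by ring
      _ ≤ _ := by
          have := mul_le_mul_of_nonneg_left (add_le_add (h3 y hy) (h4 y hy)) hk0.le
          linarith [h1 y hy, h2 y hy]

lemma re_eq (z : ℂ) : ((z.re : ℝ) : ℂ) = (1 / 2) * z + (1 / 2) * starRingEnd ℂ z := by
  rw [Complex.re_eq_add_conj]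
  ring

theorem part2 (k b T c c1 : ℝ) (hT : 0 < T) (hk : 0 < k) (hb : k / 2 < b) (hbc : b < c1)
    (hc : c1 < c - 1) (n : ℕ) (ζ : ℂ) (hn : 1 ≤ n) :
      (∃ G : ℂ → ℂ, MRep k (c - 1 / 2) c1 (-1) (Psi2 k b T (c - 1 / 2)) (Psi1 k b T c1)
        (fun y => (ζ * Hw k ((b : ℂ) + (T * n : ℝ) * Complex.I) y).re) G ∧
        ∀ m : ℕ, 1 ≤ m → G ((b : ℂ) + (T * m : ℝ) * Complex.I) =
          if m = n then ζ * ((Real.pi / T * Real.sinh (Real.pi * (2 * b - k) / T) / 2 : ℝ) : ℂ)
          else 0) ∧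
      ∃ K : ℝ, ∀ y, 0 < y → (y ^ (c + 1) + y ^ (c - 1)) *
        |(ζ * Hw k ((b : ℂ) + (T * n : ℝ) * Complex.I) y).re| ≤ K := by
  obtain ⟨a, ha⟩ : ∃ a : ℂ, a = (b : ℂ) + (T * n : ℝ) * Complex.I := ⟨_, rfl⟩
  rw [← ha]
  have r1 : a.re = b := by simp [ha]
  have r2 : ((k : ℂ) - a).re = k - b := by simp [r1]
  have r3 : (starRingEnd ℂ a).re = b := by simp [r1]
  have r4 : ((k : ℂ) - starRingEnd ℂ a).re = k - b := by simp [r1]
  have z1 : Pz k b T a = 0 := by
    have := Pz_zero k b hT (n : ℤ)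
    rw [ha]
    simpa using this
  have z3 : Pz k b T (starRingEnd ℂ a) = 0 := by
    have := Pz_zero k b hT (-(n : ℤ))
    rw [← this, ha]
    congr 1
    simp
  have z4 : Pz k b T (k - starRingEnd ℂ a) = 0 := by rw [Pz_refl, z1, map_zero]
  have z2 : Pz k b T (k - a) = 0 := by
    have := Pz_refl k b T (starRingEnd ℂ a)
    rw [Complex.conj_conj] at this
    rw [this, z3, map_zero]
  have hne : ∀ w a' : ℂ, a'.re < w.re → w ≠ a' := by
    intro w a' h h'
    rw [h'] at h
    exact lt_irrefl _ h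
  constructor
  · refine ⟨fun w => (1 / 2) * (ζ * (dslope (Pz k b T) a w + dslope (Pz k b T) (k - a) w)) +
      (1 / 2) * (starRingEnd ℂ ζ * (dslope (Pz k b T) (starRingEnd ℂ a) w +
        dslope (Pz k b T) (k - starRingEnd ℂ a) w)), ?_, fun m hm => ?_⟩
    · refine ⟨fun y => (ζ * (-Ei (a + 1) y + -Ei (k - a + 1) y)).re, fun y hy => ?_, ?_, ?_, ?_,
        fun w => ?_, fun u => ?_, fun u => ?_⟩
      · have h1 := ((hasDerivAt_Ei a hy).add (hasDerivAt_Ei (k - a) hy)).const_mul ζ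
        have h2 : HasDerivAt (fun y : ℝ => ζ * Hw k a y)
            (ζ * (-Ei (a + 1) y + -Ei (k - a + 1) y)) y := by
          refine h1.congr_of_eventuallyEq ?_
          filter_upwards [Ioi_mem_nhds hy] with x hx
          rw [Hw_eq k a hx]
          rfl
        exact Complex.reCLM.hasFDerivAt.comp_hasDerivAt y h2
      · intro y hy
        refine ContinuousAt.continuousWithinAt ?_
        refine Complex.continuous_re.continuousAt.comp (ContinuousAt.mul continuousAt_const ?_)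
        exact (hasDerivAt_Ei _ hy).continuousAt.neg.add (hasDerivAt_Ei _ hy).continuousAt.neg
      · exact ((((ds_diff k b T _).add (ds_diff k b T _)).const_mul _).const_mul _).add
          ((((ds_diff k b T _).add (ds_diff k b T _)).const_mul _).const_mul _)
      · obtain ⟨K, hK⟩ := ds_bdd k b (c - 1 / 2) hT
        refine ⟨‖(1 / 2 : ℂ)‖ * (‖ζ‖ * (K + K)) + ‖(1 / 2 : ℂ)‖ * (‖starRingEnd ℂ ζ‖ * (K + K)),
          fun w h1 h2 => ?_⟩
        have h3 : |w.re| ≤ c - 1 / 2 := abs_le.2 ⟨by linarith, h2⟩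
        have b1 := hK a w (by rw [r1]; exact abs_le.2 ⟨by linarith, by linarith⟩) h3
        have b2 := hK (k - a) w (by rw [r2]; exact abs_le.2 ⟨by linarith, by linarith⟩) h3
        have b3 := hK (starRingEnd ℂ a) w
          (by rw [r3]; exact abs_le.2 ⟨by linarith, by linarith⟩) h3
        have b4 := hK (k - starRingEnd ℂ a) w
          (by rw [r4]; exact abs_le.2 ⟨by linarith, by linarith⟩) h3
        refine (norm_add_le _ _).trans (add_le_add ?_ ?_)
        · rw [norm_mul, norm_mul]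
          gcongr
          exact (norm_add_le _ _).trans (add_le_add b1 b2)
        · rw [norm_mul, norm_mul]
          gcongr
          exact (norm_add_le _ _).trans (add_le_add b3 b4)
      · simp only [ds_refl, map_add, map_mul, map_sub, Complex.conj_conj, Complex.conj_ofReal,
          sub_sub_cancel, map_div₀, map_one, map_ofNat]
        ring
      · set w : ℂ := ((c - 1 / 2 : ℝ) : ℂ) + u * Complex.I with hw
        have hre : w.re = c - 1 / 2 := by simp [hw]
        have hw0 : 0 < w.re := by rw [hre]; linarith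
        have hP : Pz k b T w ≠ 0 := Pz_ne hT hb (by rw [hre]; linarith)
        have l1 : a.re < w.re := by rw [hre, r1]; linarith
        have l2 : ((k : ℂ) - a).re < w.re := by rw [hre, r2]; linarith
        have l3 : (starRingEnd ℂ a).re < w.re := by rw [hre, r3]; linarith
        have l4 : ((k : ℂ) - starRingEnd ℂ a).re < w.re := by rw [hre, r4]; linarith
        have h := hm_add (hm_mul (hm_mul (hm_add (hm_Ei _ hw0 l1) (hm_Ei _ hw0 l2)) ζ) (1 / 2))
          (hm_mul (hm_mul (hm_add (hm_Ei _ hw0 l3) (hm_Ei _ hw0 l4)) (starRingEnd ℂ ζ)) (1 / 2))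
        refine hm_congr h (fun y hy => ?_) ?_
        · rw [re_eq, Hw_eq k a hy]
          simp only [map_mul, map_add, conj_Ei, map_sub, Complex.conj_ofReal]
        · unfold Psi2
          rw [← hw]
          simp only [ds_ne z1 (hne _ _ l1), ds_ne z2 (hne _ _ l2), ds_ne z3 (hne _ _ l3),
            ds_ne z4 (hne _ _ l4), div_eq_mul_inv]
          generalize (w - a)⁻¹ = i1
          generalize (w - (k - a))⁻¹ = i2
          generalize (w - starRingEnd ℂ a)⁻¹ = i3
          generalize (w - (k - starRingEnd ℂ a))⁻¹ = i4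
          field_simp
      · set w : ℂ := (c1 : ℂ) + u * Complex.I with hw
        have hre : w.re = c1 := by simp [hw]
        have hw0 : 0 < w.re := by rw [hre]; linarith
        have hP : Pz k b T w ≠ 0 := Pz_ne hT hb (by rw [hre]; linarith)
        have l1 : a.re < w.re := by rw [hre, r1]; linarith
        have l2 : ((k : ℂ) - a).re < w.re := by rw [hre, r2]; linarith
        have l3 : (starRingEnd ℂ a).re < w.re := by rw [hre, r3]; linarith
        have l4 : ((k : ℂ) - starRingEnd ℂ a).re < w.re := by rw [hre, r4]; linarith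
        have h := hm_add (hm_mul (hm_mul (hm_add (hm_Ei' _ hw0 l1) (hm_Ei' _ hw0 l2)) ζ) (1 / 2))
          (hm_mul (hm_mul (hm_add (hm_Ei' _ hw0 l3) (hm_Ei' _ hw0 l4)) (starRingEnd ℂ ζ)) (1 / 2))
        refine hm_congr h (fun y hy => ?_) ?_
        · rw [Complex.ofReal_mul, re_eq]
          simp only [map_mul, map_add, map_neg, conj_Ei, map_sub, Complex.conj_ofReal, map_one]
          ring
        · unfold Psi1
          rw [← hw]
          simp only [ds_ne z1 (hne _ _ l1), ds_ne z2 (hne _ _ l2), ds_ne z3 (hne _ _ l3),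
            ds_ne z4 (hne _ _ l4), div_eq_mul_inv]
          generalize (w - a)⁻¹ = i1
          generalize (w - (k - a))⁻¹ = i2
          generalize (w - starRingEnd ℂ a)⁻¹ = i3
          generalize (w - (k - starRingEnd ℂ a))⁻¹ = i4
          field_simp
          ring
    · obtain ⟨w, hw⟩ : ∃ w : ℂ, w = (b : ℂ) + (T * m : ℝ) * Complex.I := ⟨_, rfl⟩
      rw [← hw]
      have hre : w.re = b := by simp [hw]
      have him : w.im = T * m := by simp [hw]
      have aim : a.im = T * n := by simp [ha]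
      have zw : Pz k b T w = 0 := by
        have := Pz_zero k b hT (m : ℤ)
        rw [hw]
        simpa using this
      have l2 : ((k : ℂ) - a).re < w.re := by rw [hre, r2]; linarith
      have l4 : ((k : ℂ) - starRingEnd ℂ a).re < w.re := by rw [hre, r4]; linarith
      have n3 : w ≠ starRingEnd ℂ a := by
        intro h
        have h1 := congrArg Complex.im h
        rw [Complex.conj_im, him, aim] at h1
        have hm' : (1 : ℝ) ≤ m := by exact_mod_cast hm
        have hn' : (1 : ℝ) ≤ n := by exact_mod_cast hn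
        nlinarith
      simp only [ds_ne z2 (hne _ _ l2), ds_ne z3 n3, ds_ne z4 (hne _ _ l4), zw, zero_div, add_zero,
        mul_zero]
      split_ifs with hmn
      · have : w = a := by rw [hw, ha, hmn]
        rw [this, ds_same, ha, Pd_val k b hT n]
        push_cast
        ring
      · have : w ≠ a := by
          intro h
          have h1 := congrArg Complex.im h
          rw [him, aim] at h1
          exact hmn (by exact_mod_cast mul_left_cancel₀ hT.ne' h1)
        rw [ds_ne z1 this, zw]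
        simp
  · refine ⟨‖ζ‖ * (2 * Real.Gamma (c + 1) + 2 * Real.Gamma (c - 1)), fun y hy => ?_⟩
    have b1 := norm_Ei_le a (B := c + 1) (by rw [r1]; linarith) (by linarith) hy
    have b2 := norm_Ei_le (k - a) (B := c + 1) (by rw [r2]; linarith) (by linarith) hy
    have b3 := norm_Ei_le a (B := c - 1) (by rw [r1]; linarith) (by linarith) hy
    have b4 := norm_Ei_le (k - a) (B := c - 1) (by rw [r2]; linarith) (by linarith) hy
    have h5 : |(ζ * Hw k a y).re| ≤ ‖ζ‖ * (‖Ei a y‖ + ‖Ei (k - a) y‖) := by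
      refine (Complex.abs_re_le_norm _).trans ?_
      rw [norm_mul, Hw_eq k a hy]
      exact mul_le_mul_of_nonneg_left (norm_add_le _ _) (norm_nonneg _)
    calc _ ≤ (y ^ (c + 1) + y ^ (c - 1)) * (‖ζ‖ * (‖Ei a y‖ + ‖Ei (k - a) y‖)) :=
          mul_le_mul_of_nonneg_left h5 (by positivity)
      _ = ‖ζ‖ * (y ^ (c + 1) * ‖Ei a y‖ + y ^ (c + 1) * ‖Ei (k - a) y‖ +
          (y ^ (c - 1) * ‖Ei a y‖ + y ^ (c - 1) * ‖Ei (k - a) y‖)) := by ring
      _ ≤ _ := mul_le_mul_of_nonneg_left (by linarith) (norm_nonneg _)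

end H413

theorem mrep_gens (k b T c c1 : ℝ) (hT : 0 < T) (hk : 0 < k) (hb : k / 2 < b) (hbc : b < c1)
    (hc : c1 < c - 1) :
    (∀ t : ℝ, 0 < t →
      MRep k (c - 1 / 2) c1 (-1) (Psi2 k b T (c - 1 / 2)) (Psi1 k b T c1)
        (fun y => Real.exp (-(t * y)) - t ^ (-k) * Real.exp (-(y / t)))
        (fun w => Pz k b T w * ((t : ℂ) ^ (-w) - (t : ℂ) ^ (w - k))) ∧
      ∃ K : ℝ, ∀ y, 0 < y → (y ^ (c + 1) + y ^ (c - 1)) *
        |Real.exp (-(t * y)) - t ^ (-k) * Real.exp (-(y / t))| ≤ K) ∧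
    (∀ (n : ℕ) (ζ : ℂ), 1 ≤ n →
      (∃ G : ℂ → ℂ, MRep k (c - 1 / 2) c1 (-1) (Psi2 k b T (c - 1 / 2)) (Psi1 k b T c1)
        (fun y => (ζ * Hw k ((b : ℂ) + (T * n : ℝ) * Complex.I) y).re) G ∧
        ∀ m : ℕ, 1 ≤ m → G ((b : ℂ) + (T * m : ℝ) * Complex.I) =
          if m = n then ζ * ((Real.pi / T * Real.sinh (Real.pi * (2 * b - k) / T) / 2 : ℝ) : ℂ)
          else 0) ∧
      ∃ K : ℝ, ∀ y, 0 < y → (y ^ (c + 1) + y ^ (c - 1)) *
        |(ζ * Hw k ((b : ℂ) + (T * n : ℝ) * Complex.I) y).re| ≤ K) :=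
  ⟨fun t ht => H413.part1 k b T c c1 hT hk hb hbc hc t ht,
    fun n ζ hn => H413.part2 k b T c c1 hT hk hb hbc hc n ζ hn⟩

end Pool.Agent.H520Z.Sel
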