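import Pool.Agent.H520Z.Sel.Defs3

/-!
Incomplete Gamma type integrals `y ↦ ∫_1^∞ exp (-t y) t^(a-1) dt` and their Mellin transforms.
-/

set_option autoImplicit false

namespace Pool.Agent.H520Z.Sel.H413

open MeasureTheory Set Filter Topology

/-- `∫_1^∞ exp (-t y) t^(a-1) dt`. -/
noncomputable def Ei (a : ℂ) (y : ℝ) : ℂ :=
  ∫ t in Ioi (1 : ℝ), (Real.exp (-(t * y)) : ℂ) * (t : ℂ) ^ (a - 1)

lemma hm_add {f g : ℝ → ℂ} {s m n : ℂ} (hf : HasMellin f s m) (hg : HasMellin g s n) :
    HasMellin (fun t => f t + g t) s (m + n) := by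
  have := hasMellin_add hf.1 hg.1
  rwa [hf.2, hg.2] at this

lemma hm_mul {f : ℝ → ℂ} {s m : ℂ} (hf : HasMellin f s m) (c : ℂ) :
    HasMellin (fun t => c * f t) s (c * m) := by
  have := hasMellin_const_smul hf.1 c
  rw [hf.2] at this
  simpa only [smul_eq_mul] using this

lemma hm_congr {f g : ℝ → ℂ} {s m n : ℂ} (hf : HasMellin f s m) (h : ∀ y, 0 < y → g y = f y)
    (hm : n = m) : HasMellin g s n := by
  subst hm
  refine ⟨?_, ?_⟩
  · refine (integrableOn_congr_fun (fun t ht => ?_) measurableSet_Ioi).2 hf.1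
    simp only [h t ht]
  · rw [← hf.2]
    refine setIntegral_congr_fun measurableSet_Ioi fun t ht => ?_
    simp only [h t ht]

lemma hm_shift {f : ℝ → ℂ} {s m : ℂ} (hf : HasMellin f (s + 1) m) :
    HasMellin (fun t => (t : ℂ) * f t) s m := by
  have h1 : HasMellin (fun t : ℝ => (t : ℂ) ^ (1 : ℂ) • f t) s m :=
    ⟨MellinConvergent.cpow_smul.2 hf.1, by rw [mellin_cpow_smul, hf.2]⟩
  simpa using h1

lemma int_real {B r : ℝ} (hB : 0 < B) (hr : 0 < r) :
    IntegrableOn (fun x : ℝ => x ^ (B - 1) * Real.exp (-(r * x))) (Ioi 0) := by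
  have := integrableOn_rpow_mul_exp_neg_mul_rpow (p := 1) (s := B - 1) (b := r) (by linarith)
    one_pos hr
  simpa using this

lemma val_real {B r : ℝ} (hB : 0 < B) (hr : 0 < r) :
    ∫ x in Ioi (0 : ℝ), x ^ (B - 1) * Real.exp (-(r * x)) = r ^ (-B) * Real.Gamma B := by
  rw [Real.integral_rpow_mul_exp_neg_mul_Ioi hB hr, one_div, Real.inv_rpow hr.le,
    Real.rpow_neg hr.le]

lemma hm_exp {r : ℝ} (hr : 0 < r) {w : ℂ} (hw : 0 < w.re) :
    HasMellin (fun y : ℝ => (Real.exp (-(r * y)) : ℂ)) w ((r : ℂ) ^ (-w) * Complex.Gamma w) := by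
  refine ⟨?_, ?_⟩
  · unfold MellinConvergent
    refine Integrable.mono' (int_real hw hr) ?_ ?_
    · refine ContinuousOn.aestronglyMeasurable ?_ measurableSet_Ioi
      intro t ht
      refine ContinuousAt.continuousWithinAt ?_
      have hc : ContinuousAt (fun y : ℝ => (Real.exp (-(r * y)) : ℂ)) t := by fun_prop
      exact ContinuousAt.smul
        (Complex.continuousAt_ofReal_cpow_const _ _ (Or.inr (ne_of_gt ht))) hc
    · refine (ae_restrict_iff' measurableSet_Ioi).2 (Eventually.of_forall fun t ht => ?_)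
      rw [norm_smul, Complex.norm_cpow_eq_rpow_re_of_pos ht, Complex.norm_real,
        Real.norm_eq_abs, abs_of_pos (Real.exp_pos _)]
      simp
  · have h := Complex.integral_cpow_mul_exp_neg_mul_Ioi hw hr
    have h2 : (1 / (r : ℂ)) ^ w = (r : ℂ) ^ (-w) := by
      rw [one_div, Complex.inv_cpow _ _ (by
        rw [Complex.arg_ofReal_of_nonneg hr.le]; exact Real.pi_ne_zero.symm), Complex.cpow_neg]
    rw [h2] at h
    rw [← h]
    unfold mellin
    refine setIntegral_congr_fun measurableSet_Ioi fun t _ => ?_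
    simp

lemma norm_term (a : ℂ) (y : ℝ) {t : ℝ} (ht : 0 < t) :
    ‖(Real.exp (-(t * y)) : ℂ) * (t : ℂ) ^ (a - 1)‖ = t ^ (a.re - 1) * Real.exp (-(y * t)) := by
  rw [norm_mul, Complex.norm_cpow_eq_rpow_re_of_pos ht, Complex.norm_real,
    Real.norm_eq_abs, abs_of_pos (Real.exp_pos _), mul_comm, mul_comm t y]
  simp

lemma norm_term_le (a : ℂ) {B y y' t : ℝ} (hB : a.re ≤ B) (ht : 1 < t) (hy : y' ≤ y) :
    ‖(Real.exp (-(t * y)) : ℂ) * (t : ℂ) ^ (a - 1)‖ ≤ t ^ (B - 1) * Real.exp (-(y' * t)) := by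
  rw [norm_term a y (by linarith)]
  refine mul_le_mul (Real.rpow_le_rpow_of_exponent_le ht.le (by linarith)) ?_ (Real.exp_pos _).le
    (by positivity)
  apply Real.exp_le_exp.2
  nlinarith

lemma meas_term (a : ℂ) (y : ℝ) : AEStronglyMeasurable
    (fun t : ℝ => (Real.exp (-(t * y)) : ℂ) * (t : ℂ) ^ (a - 1)) (volume.restrict (Ioi 1)) := by
  refine ContinuousOn.aestronglyMeasurable ?_ measurableSet_Ioi
  intro t ht
  refine ContinuousAt.continuousWithinAt ?_
  refine ContinuousAt.mul (by fun_prop) ?_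
  exact Complex.continuousAt_ofReal_cpow_const _ _
    (Or.inr (ne_of_gt (lt_trans one_pos (mem_Ioi.1 ht))))

lemma int_term (a : ℂ) {y : ℝ} (hy : 0 < y) : IntegrableOn
    (fun t : ℝ => (Real.exp (-(t * y)) : ℂ) * (t : ℂ) ^ (a - 1)) (Ioi 1) := by
  have hB : 0 < |a.re| + 1 := by positivity
  refine Integrable.mono' ((int_real hB hy).mono_set (Ioi_subset_Ioi zero_le_one))
    (meas_term a y) ?_
  refine (ae_restrict_iff' measurableSet_Ioi).2 (Eventually.of_forall fun t ht => ?_)
  exact norm_term_le a (by linarith [le_abs_self a.re]) ht le_rfl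

lemma norm_Ei_le (a : ℂ) {B y : ℝ} (hB : a.re ≤ B) (hB0 : 0 < B) (hy : 0 < y) :
    y ^ B * ‖Ei a y‖ ≤ Real.Gamma B := by
  have h1 : ‖Ei a y‖ ≤ y ^ (-B) * Real.Gamma B := by
    rw [← val_real hB0 hy]
    refine le_trans (norm_integral_le_of_norm_le
      ((int_real hB0 hy).mono_set (Ioi_subset_Ioi zero_le_one)) ?_) ?_
    · refine (ae_restrict_iff' measurableSet_Ioi).2 (Eventually.of_forall fun t ht => ?_)
      exact norm_term_le a hB ht le_rfl
    · refine setIntegral_mono_set (int_real hB0 hy) ?_ (Ioi_subset_Ioi zero_le_one).eventuallyLE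
      refine (ae_restrict_iff' measurableSet_Ioi).2 (Eventually.of_forall fun t ht => ?_)
      have : 0 < t := ht
      positivity
  calc y ^ B * ‖Ei a y‖ ≤ y ^ B * (y ^ (-B) * Real.Gamma B) :=
        mul_le_mul_of_nonneg_left h1 (by positivity)
    _ = Real.Gamma B := by
        rw [← mul_assoc, ← Real.rpow_add hy]
        simp

lemma hasDerivAt_Ei (a : ℂ) {y : ℝ} (hy : 0 < y) : HasDerivAt (Ei a) (-Ei (a + 1) y) y := by
  have hB : 0 < |a.re| + 1 := by positivity
  have h := hasDerivAt_integral_of_dominated_loc_of_deriv_le (μ := volume.restrict (Ioi (1 : ℝ)))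
    (F := fun (x : ℝ) (t : ℝ) => (Real.exp (-(t * x)) : ℂ) * (t : ℂ) ^ (a - 1))
    (F' := fun (x : ℝ) (t : ℝ) => -((Real.exp (-(t * x)) : ℂ) * (t : ℂ) ^ (a + 1 - 1)))
    (x₀ := y) (s := Ioi (y / 2)) (bound := fun t => t ^ (|a.re| + 1 - 1) * Real.exp (-(y / 2 * t)))
    (Ioi_mem_nhds (by linarith)) (Eventually.of_forall fun x => meas_term a x) (int_term a hy)
    (meas_term (a + 1) y).neg ?_
    ((int_real hB (half_pos hy)).mono_set (Ioi_subset_Ioi zero_le_one)) ?_
  · have h2 := h.2
    rw [integral_neg] at h2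
    exact h2
  · refine (ae_restrict_iff' measurableSet_Ioi).2 (Eventually.of_forall fun t ht x hx => ?_)
    rw [norm_neg]
    exact norm_term_le (a + 1) (by simp [le_abs_self]) ht (le_of_lt hx)
  · refine (ae_restrict_iff' measurableSet_Ioi).2 (Eventually.of_forall fun t ht x _ => ?_)
    have ht0 : (t : ℂ) ≠ 0 := by
      have : (1 : ℝ) < t := ht
      exact_mod_cast (by linarith : t ≠ 0)
    have h1 : HasDerivAt (fun x : ℝ => Real.exp (-(t * x))) (Real.exp (-(t * x)) * (-t)) x := by
      have := ((hasDerivAt_id x).const_mul t).neg.exp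
      simpa using this
    have h2 := h1.ofReal_comp.mul_const ((t : ℂ) ^ (a - 1))
    refine h2.congr_deriv ?_
    rw [show a + 1 - 1 = (a - 1) + 1 by ring, Complex.cpow_add _ _ ht0, Complex.cpow_one]
    push_cast
    ring

lemma conj_Ei (a : ℂ) (y : ℝ) : starRingEnd ℂ (Ei a y) = Ei (starRingEnd ℂ a) y := by
  unfold Ei
  rw [← integral_conj]
  refine setIntegral_congr_fun measurableSet_Ioi fun t ht => ?_
  have ht0 : 0 < t := lt_trans one_pos (mem_Ioi.1 ht)
  have harg : (t : ℂ).arg ≠ Real.pi := by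
    rw [Complex.arg_ofReal_of_nonneg ht0.le]; exact Real.pi_ne_zero.symm
  simp only [map_mul, Complex.conj_ofReal]
  congr 1
  have := Complex.cpow_conj (t : ℂ) (a - 1) harg
  rw [Complex.conj_ofReal] at this
  rw [← this]
  simp

lemma hm_Ei (a : ℂ) {w : ℂ} (hw : 0 < w.re) (ha : a.re < w.re) :
    HasMellin (Ei a) w (Complex.Gamma w / (w - a)) := by
  set f : ℝ → ℝ → ℂ := fun y t =>
    (y : ℂ) ^ (w - 1) * ((Real.exp (-(t * y)) : ℂ) * (t : ℂ) ^ (a - 1)) with hf
  have hmeas : AEStronglyMeasurable (Function.uncurry f)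
      ((volume.restrict (Ioi (0 : ℝ))).prod (volume.restrict (Ioi (1 : ℝ)))) := by
    apply Measurable.aestronglyMeasurable
    unfold Function.uncurry
    simp only [hf]
    refine Measurable.mul ?_ (Measurable.mul ?_ ?_)
    · exact (Complex.measurable_ofReal.comp measurable_fst).pow_const _
    · fun_prop
    · exact (Complex.measurable_ofReal.comp measurable_snd).pow_const _
  have hslice : ∀ t : ℝ, 1 < t → ∀ y, f y t =
      (t : ℂ) ^ (a - 1) * ((y : ℂ) ^ (w - 1) • (Real.exp (-(t * y)) : ℂ)) := by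
    intro t _ y
    simp only [hf, smul_eq_mul]
    ring
  have hint : Integrable (Function.uncurry f)
      ((volume.restrict (Ioi (0 : ℝ))).prod (volume.restrict (Ioi (1 : ℝ)))) := by
    rw [integrable_prod_iff' hmeas]
    constructor
    · refine (ae_restrict_iff' measurableSet_Ioi).2 (Eventually.of_forall fun t ht => ?_)
      have ht0 : 0 < t := lt_trans one_pos (mem_Ioi.1 ht)
      simp only [Function.uncurry, hslice t ht]
      exact Integrable.const_mul (hm_exp ht0 hw).1 _
    · have h1 : IntegrableOn (fun t : ℝ => t ^ (a.re - w.re - 1) * Real.Gamma w.re) (Ioi 1) :=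
        Integrable.mul_const (integrableOn_Ioi_rpow_of_lt (by linarith) one_pos) _
      refine (integrableOn_congr_fun (fun t ht => ?_) measurableSet_Ioi).2 h1
      have ht0 : 0 < t := lt_trans one_pos (mem_Ioi.1 ht)
      have h2 : ∫ y in Ioi (0 : ℝ), ‖Function.uncurry f (y, t)‖ =
          ∫ y in Ioi (0 : ℝ), t ^ (a.re - 1) * (y ^ (w.re - 1) * Real.exp (-(t * y))) := by
        refine setIntegral_congr_fun measurableSet_Ioi fun y hy => ?_
        simp only [Function.uncurry, hf]
        rw [norm_mul, norm_term a y ht0, Complex.norm_cpow_eq_rpow_re_of_pos hy, mul_comm y t]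
        simp only [Complex.sub_re, Complex.one_re]
        ring
      rw [h2, integral_const_mul, val_real hw ht0, ← mul_assoc, ← Real.rpow_add ht0]
      congr 2
      ring
  have hE : ∀ y : ℝ, (y : ℂ) ^ (w - 1) • Ei a y = ∫ t in Ioi (1 : ℝ), f y t := by
    intro y
    simp only [hf, Ei, smul_eq_mul]
    rw [integral_const_mul]
  refine ⟨?_, ?_⟩
  · unfold MellinConvergent
    simp only [hE]
    exact hint.integral_prod_left
  · unfold mellin
    simp only [hE]
    rw [integral_integral_swap hint]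
    have h3 : ∫ t in Ioi (1 : ℝ), ∫ y in Ioi (0 : ℝ), f y t =
        ∫ t in Ioi (1 : ℝ), (t : ℂ) ^ (a - w - 1) * Complex.Gamma w := by
      refine setIntegral_congr_fun measurableSet_Ioi fun t ht => ?_
      have ht0 : 0 < t := lt_trans one_pos (mem_Ioi.1 ht)
      have ht1 : (t : ℂ) ≠ 0 := by exact_mod_cast ht0.ne'
      simp only [hslice t ht]
      rw [integral_const_mul]
      have := (hm_exp ht0 hw).2
      unfold mellin at this
      rw [this, ← mul_assoc, ← Complex.cpow_add _ _ ht1]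
      congr 2
      ring
    rw [h3, integral_mul_const, integral_Ioi_cpow_of_lt (by simp; linarith) one_pos]
    have hne : w - a ≠ 0 := by
      intro h
      have := congrArg Complex.re h
      simp at this
      linarith
    have hne' : a - w - 1 + 1 ≠ 0 := by
      intro h
      apply hne
      linear_combination -h
    simp only [Complex.ofReal_one, Complex.one_cpow]
    field_simp
    ring

lemma hm_Ei' (a : ℂ) {w : ℂ} (hw : 0 < w.re) (ha : a.re < w.re) :
    HasMellin (fun y : ℝ => (y : ℂ) * -Ei (a + 1) y) w (-(w * Complex.Gamma w) / (w - a)) := by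
  have hw0 : w ≠ 0 := by
    intro h
    simp [h] at hw
  have h1 := hm_Ei (a + 1) (w := w + 1) (by simp; linarith) (by simpa using ha)
  have h2 := hm_mul (hm_shift h1) (-1)
  refine hm_congr h2 (fun y _ => by ring) ?_
  rw [Complex.Gamma_add_one _ hw0, show w + 1 - (a + 1) = w - a by ring]
  ring

lemma Hw_eq (k : ℝ) (w0 : ℂ) {y : ℝ} (hy : 0 < y) : Hw k w0 y = Ei w0 y + Ei (k - w0) y := by
  unfold Hw Ei
  rw [← integral_add (int_term w0 hy) (int_term _ hy)]
  refine setIntegral_congr_fun measurableSet_Ioi fun t _ => ?_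
  simp only [mul_add]

end Pool.Agent.H520Z.Sel.H413
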